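import Pool.Agent.TH526.PercMixedK

set_option autoImplicit false

open MeasureTheory Set Filter
open scoped Topology

/-!
Bond percolation on `Z^(n+1)`, possibly with diluted sites, with weak long-range bonds: the
percolating phase is open in all three parameters; finite-range versions.
-/

namespace Pool.Agent.TH526

open Pool.Agent.W783.PC

noncomputable section

variable {n : ℕ}

/-- The percolating phase: parameters `(a, p, β)`, all positive, for which the origin lies in an
infinite open cluster with positive probability. -/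
def phase (n m : ℕ) (s : ℝ) : Set (unitInterval × unitInterval × NNReal) :=
  {x | 0 < x.1 ∧ 0 < x.2.1 ∧ 0 < x.2.2 ∧ 0 < theta n x.1 x.2.1 x.2.2 s m}

theorem phase_isOpen {m : ℕ} {s : ℝ} (hn : 1 ≤ n) (hm : 1 ≤ m) (hs : 1 < s) (hs2 : s < 2) :
    IsOpen (phase n m s) := by
  rw [isOpen_iff_mem_nhds]
  rintro ⟨a, p, β⟩ ⟨ha, hp, hβ, hθ⟩
  simp only at ha hp hβ hθ
  have h1 : ∀ᶠ x : unitInterval × unitInterval × NNReal in 𝓝 (a, p, β), 0 < x.1 :=
    (continuous_fst.tendsto _).eventually (Ioi_mem_nhds ha)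
  have h2 : ∀ᶠ x : unitInterval × unitInterval × NNReal in 𝓝 (a, p, β), 0 < x.2.1 :=
    ((continuous_fst.comp continuous_snd).tendsto _).eventually (Ioi_mem_nhds hp)
  have h3 : ∀ᶠ x : unitInterval × unitInterval × NNReal in 𝓝 (a, p, β), 0 < x.2.2 :=
    ((continuous_snd.comp continuous_snd).tendsto _).eventually (Ioi_mem_nhds hβ)
  suffices h4 : ∀ᶠ x : unitInterval × unitInterval × NNReal in 𝓝 (a, p, β),
      0 < theta n x.1 x.2.1 x.2.2 s m by
    filter_upwards [h1, h2, h3, h4] with x h1 h2 h3 h4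
    exact ⟨h1, h2, h3, h4⟩
  have d1 : ∀ δ : ℝ, 0 < δ → ∀ᶠ x : unitInterval × unitInterval × NNReal in 𝓝 (a, p, β),
      |(x.1 : ℝ) - a| < δ := by
    intro δ hδ
    have : Continuous (fun x : unitInterval × unitInterval × NNReal => |(x.1 : ℝ) - a|) := by
      fun_prop
    exact (this.tendsto (a, p, β)).eventually (gt_mem_nhds (by simpa using hδ))
  have d2 : ∀ δ : ℝ, 0 < δ → ∀ᶠ x : unitInterval × unitInterval × NNReal in 𝓝 (a, p, β),
      |(x.2.1 : ℝ) - p| < δ := by
    intro δ hδ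
    have : Continuous (fun x : unitInterval × unitInterval × NNReal => |(x.2.1 : ℝ) - p|) := by
      fun_prop
    exact (this.tendsto (a, p, β)).eventually (gt_mem_nhds (by simpa using hδ))
  have d3 : ∀ δ : ℝ, 0 < δ → ∀ᶠ x : unitInterval × unitInterval × NNReal in 𝓝 (a, p, β),
      |(x.2.2 : ℝ) - β| < δ := by
    intro δ hδ
    have : Continuous (fun x : unitInterval × unitInterval × NNReal => |(x.2.2 : ℝ) - β|) := by
      fun_prop
    exact (this.tendsto (a, p, β)).eventually (gt_mem_nhds (by simpa using hδ))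
  have ha1 : (a : ℝ) ≤ 1 := a.2.2
  have hp1 : (p : ℝ) ≤ 1 := p.2.2
  have ha0 : (0 : ℝ) < a := ha
  have hp0 : (0 : ℝ) < p := hp
  rcases lt_or_eq_of_le (show (a : ℝ) * p ≤ 1 by nlinarith) with hlt | heq
  · obtain ⟨K, δ, hδ, h⟩ := open_phase hn hm hs hs2 ha hp hβ hlt hθ
    filter_upwards [d1 δ hδ, d2 δ hδ, d3 δ hδ] with x e1 e2 e3
    exact lt_of_lt_of_le (h x.1 x.2.1 x.2.2 e1.le e2.le e3.le) (thetaK_le _ _ _ _ _ _)
  · obtain ⟨ε, hε, h⟩ := Pool.Agent.W308.PC.High.s_high
      (Pool.Agent.W573.PC.s_multi Pool.Agent.W45.PC.s_indep Pool.Agent.W45.PC.s_depmeas) n hn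
    have ha2 : (a : ℝ) = 1 := by nlinarith
    have hp2 : (p : ℝ) = 1 := by nlinarith
    filter_upwards [d1 ε hε, d2 ε hε] with x e1 e2
    rw [ha2] at e1
    rw [hp2] at e2
    exact h m x.1 x.2.1 x.2.2 s (by linarith [(abs_lt.mp e1).1]) (by linarith [(abs_lt.mp e2).1])

/-- almost sure form: at a limit of non-percolating parameters all clusters are finite -/
theorem boundary_ae {m : ℕ} {s : ℝ} (hn : 1 ≤ n) (hm : 1 ≤ m) (hs : 1 < s) (hs2 : s < 2)
    {a p : unitInterval} {β : NNReal} (ha : 0 < a) (hp : 0 < p) (hβ : 0 < β)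
    (h : (a, p, β) ∈ closure {x : unitInterval × unitInterval × NNReal |
      theta n x.1 x.2.1 x.2.2 s m = 0}) :
    ∀ᵐ ω ∂(pm (prob (n := n) a p β s m)), ∀ x, (cl (EdI m) ω univ x).Finite := by
  refine ae_finite (NN_EdI m) _ (fun v => ha) (fun e he => ?_) ?_
  · rw [prob_nn _ _ _ _ _ he]
    exact hp
  · by_contra hc
    have hθ : 0 < theta n a p β s m := lt_of_le_of_ne (theta_nonneg _ _ _ _ _) (Ne.symm hc)
    have h1 := mem_closure_iff.mp h (phase n m s) (phase_isOpen hn hm hs hs2) ⟨ha, hp, hβ, hθ⟩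
    obtain ⟨x, ⟨-, -, -, h2⟩, h3⟩ := h1
    exact absurd h3 h2.ne'

/-- Critical bond probability when sites are open with probability `a`. -/
def pcM (n m : ℕ) (s : ℝ) (β : NNReal) (a : unitInterval) : unitInterval :=
  crit (fun p => theta n a p β s m)

/-- Critical bond probability when sites are open with probability `a` and only bonds of length at
most `K` are used. -/
def pcMK (n m : ℕ) (s : ℝ) (β : NNReal) (a : unitInterval) (K : ℕ) : unitInterval :=
  crit (fun p => thetaK n a p β s m K)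

/-- The critical value is a limit of zeros. -/
lemma crit_closure {f : unitInterval → ℝ} (hpos : 0 < crit f) :
    crit f ∈ closure {q : unitInterval | f q = 0} := by
  by_contra hc
  rw [← mem_compl_iff, ← interior_compl, mem_interior_iff_mem_nhds, Metric.mem_nhds_iff] at hc
  obtain ⟨δ, hδ, h⟩ := hc
  have hpos' : (0 : ℝ) < crit f := hpos
  obtain ⟨q, h1, h2, h3⟩ := exists_of_lt_crit (f := f) (x := max ((crit f : ℝ) - δ) 0)
    (le_max_right _ _) (max_lt (by linarith) hpos')
  have h4 : (crit f : ℝ) - δ < q := lt_of_le_of_lt (le_max_left _ _) h1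
  have h5 : (q : ℝ) ≤ crit f := h2
  refine h (show q ∈ Metric.ball (crit f) δ from ?_) h3
  rw [Metric.mem_ball, Subtype.dist_eq, Real.dist_eq, abs_lt]
  constructor <;> linarith

theorem pcM_closure {m : ℕ} {s : ℝ} {β : NNReal} {a : unitInterval} (h : 0 < pcM n m s β a) :
    (a, pcM n m s β a, β) ∈ closure {x : unitInterval × unitInterval × NNReal |
      theta n x.1 x.2.1 x.2.2 s m = 0} := by
  have h1 : Continuous (fun q : unitInterval => ((a, q, β) : unitInterval × unitInterval × NNReal)) :=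
    by fun_prop
  have h2 := (h1.closure_preimage_subset {x : unitInterval × unitInterval × NNReal |
      theta n x.1 x.2.1 x.2.2 s m = 0}) (crit_closure h)
  exact h2

theorem pcM_ae {m : ℕ} {s : ℝ} (hn : 1 ≤ n) (hm : 1 ≤ m) (hs : 1 < s) (hs2 : s < 2)
    {β : NNReal} (hβ : 0 < β) {a : unitInterval} (ha : 0 < a) (hp : 0 < pcM n m s β a) :
    ∀ᵐ ω ∂(pm (prob (n := n) a (pcM n m s β a) β s m)), ∀ x, (cl (EdI m) ω univ x).Finite :=
  boundary_ae hn hm hs hs2 ha hp hβ (pcM_closure hp)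

theorem pcM_zero {m : ℕ} {s : ℝ} (hn : 1 ≤ n) (hm : 1 ≤ m) (hs : 1 < s) (hs2 : s < 2)
    {β : NNReal} (hβ : 0 < β) {a : unitInterval} (ha : 0 < a) (hp : 0 < pcM n m s β a) :
    theta n a (pcM n m s β a) β s m = 0 := by
  by_contra hc
  have hθ : 0 < theta n a (pcM n m s β a) β s m :=
    lt_of_le_of_ne (theta_nonneg _ _ _ _ _) (Ne.symm hc)
  have h1 := mem_closure_iff.mp (pcM_closure hp) (phase n m s) (phase_isOpen hn hm hs hs2)
    ⟨ha, hp, hβ, hθ⟩
  obtain ⟨x, ⟨-, -, -, h2⟩, h3⟩ := h1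
  exact absurd h3 h2.ne'

lemma pcM_le_pcMK (m : ℕ) (s : ℝ) (β : NNReal) (a : unitInterval) (K : ℕ) :
    pcM n m s β a ≤ pcMK n m s β a K := by
  show (pcM n m s β a : ℝ) ≤ pcMK n m s β a K
  refine crit_le (pcMK n m s β a K).2.1 (fun q hq => ?_)
  refine le_crit (f := fun p => thetaK n a p β s m K) ?_
  have h1 := thetaK_le (n := n) a q β s m K
  have h2 : theta n a q β s m = 0 := hq
  exact le_antisymm (by linarith) measureReal_nonneg

/-- **Truncation of the critical bond probability.** -/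
theorem pcMK_tendsto {m : ℕ} {s : ℝ} (hn : 1 ≤ n) (hm : 1 ≤ m) (hs : 1 < s) (hs2 : s < 2)
    {β : NNReal} (hβ : 0 < β) {a : unitInterval} (ha : 0 < a) (hp : 0 < pcM n m s β a) :
    Tendsto (fun K : ℕ => (pcMK n m s β a K : ℝ)) atTop (𝓝 (pcM n m s β a : ℝ)) := by
  rcases lt_or_eq_of_le (show (pcM n m s β a : ℝ) ≤ 1 from (pcM n m s β a).2.2) with hlt | heq
  · rw [Metric.tendsto_nhds]
    intro ε hε
    have hpos : (0 : ℝ) < pcM n m s β a := hp
    set x : ℝ := min ((pcM n m s β a : ℝ) + ε / 2) (((pcM n m s β a : ℝ) + 1) / 2)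
    have hx1 : (pcM n m s β a : ℝ) < x := lt_min (by linarith) (by linarith)
    have hx2 : x < 1 := lt_of_le_of_lt (min_le_right _ _) (by linarith)
    have hx3 : x ≤ (pcM n m s β a : ℝ) + ε / 2 := min_le_left _ _
    have hx0 : 0 < x := by linarith
    have hθ : 0 < theta n a ⟨x, hx0.le, hx2.le⟩ β s m := by
      apply lt_of_le_of_ne (theta_nonneg _ _ _ _ _)
      intro h0
      have h1 : (⟨x, hx0.le, hx2.le⟩ : unitInterval) ≤ pcM n m s β a :=
        le_crit (f := fun p => theta n a p β s m) h0.symm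
      have h1' : x ≤ pcM n m s β a := h1
      linarith
    have ha' : (0 : ℝ) < a := ha
    have ha1 : (a : ℝ) ≤ 1 := a.2.2
    obtain ⟨K, δ, hδ, h⟩ := open_phase hn hm hs hs2 ha
      (show (0 : unitInterval) < ⟨x, hx0.le, hx2.le⟩ from hx0) hβ
      (show (a : ℝ) * x < 1 by nlinarith) hθ
    have h1 := h a ⟨x, hx0.le, hx2.le⟩ β (by simpa using hδ.le) (by simpa using hδ.le)
      (by simpa using hδ.le)
    filter_upwards [eventually_ge_atTop K] with K' hK'
    have h2 : (pcMK n m s β a K' : ℝ) ≤ x := by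
      refine crit_le hx0.le (fun q hq => ?_)
      by_contra hc
      push Not at hc
      have h3 := thetaK_mono (n := n) (le_refl a)
        (show (⟨x, hx0.le, hx2.le⟩ : unitInterval) ≤ q from hc.le) (le_refl β) s m hK'
      have h4 : thetaK n a q β s m K' = 0 := hq
      linarith
    have h3 : (pcM n m s β a : ℝ) ≤ pcMK n m s β a K' := pcM_le_pcMK m s β a K'
    rw [Real.dist_eq, abs_lt]
    constructor <;> linarith
  · have h1 : ∀ K, (pcMK n m s β a K : ℝ) = pcM n m s β a := by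
      intro K
      have h2 : (pcM n m s β a : ℝ) ≤ pcMK n m s β a K := pcM_le_pcMK m s β a K
      have h3 : (pcMK n m s β a K : ℝ) ≤ 1 := (pcMK n m s β a K).2.2
      linarith
    simp only [h1]
    exact tendsto_const_nhds

/-- **The jump of the finite-range models tends to zero** (critical bond probability). -/
theorem thetaKpc_tendsto {m : ℕ} {s : ℝ} (hn : 1 ≤ n) (hm : 1 ≤ m) (hs : 1 < s)
    (hs2 : s < 2) {β : NNReal} (hβ : 0 < β) {a : unitInterval} (ha : 0 < a)
    (hp : 0 < pcM n m s β a) :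
    Tendsto (fun K : ℕ => thetaK n a (pcMK n m s β a K) β s m K) atTop (𝓝 0) := by
  rw [Metric.tendsto_nhds]
  intro ε hε
  obtain ⟨δ, hδ, h⟩ := Pool.Agent.W148.PC.s_usc n m a (pcM n m s β a) β s hs (ε / 2) (by positivity)
  have h1 := (Metric.tendsto_nhds.mp (pcMK_tendsto hn hm hs hs2 hβ ha hp)) δ hδ
  filter_upwards [h1] with K hK
  rw [Real.dist_eq] at hK
  have h2 := h a (pcMK n m s β a K) (by simpa using hδ.le) hK.le
  have h3 : theta n a (pcM n m s β a) β s m = 0 := pcM_zero hn hm hs hs2 hβ ha hp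
  have h4 := thetaK_le (n := n) a (pcMK n m s β a K) β s m K
  have h5 : 0 ≤ thetaK n a (pcMK n m s β a K) β s m K := measureReal_nonneg
  unfold theta at h3 h4
  rw [Real.dist_eq, sub_zero, abs_of_nonneg h5]
  linarith

/-- Below the nearest-neighbour critical point weak long-range bonds do not create percolation. -/
theorem bond_low' {m : ℕ} {s : ℝ} (hn : 1 ≤ n) (hs : 1 < s) {p : unitInterval}
    (hp : p < pcZ n) : ∃ β0 : NNReal, 0 < β0 ∧ ∀ β ≤ β0, theta n 1 p β s m = 0 := by
  rw [← pcB_zero m s] at hp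
  exact bond_low Pool.Agent.W613.PC.s_lowb hn hs hp

end

end Pool.Agent.TH526
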