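import Pool.Agent.TH526.PercMixed

set_option autoImplicit false

open MeasureTheory Set Filter
open scoped Topology

/-!
Mixed site-bond percolation on `Z^(n+1)` with weak long-range bonds of bounded length: the jump at
the critical curve tends to zero.
-/

namespace Pool.Agent.TH526

open Pool.Agent.W783.PC

noncomputable section

variable {n : ℕ}

/-- Critical site probability when nearest-neighbour bonds are open with probability `p` and only
bonds of length at most `K` are used. -/
def acMK (n m : ℕ) (s : ℝ) (β : NNReal) (p : unitInterval) (K : ℕ) : unitInterval :=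
  crit (fun a => thetaK n a p β s m K)

lemma acM_le_acMK (m : ℕ) (s : ℝ) (β : NNReal) (p : unitInterval) (K : ℕ) :
    acM n m s β p ≤ acMK n m s β p K := by
  show (acM n m s β p : ℝ) ≤ acMK n m s β p K
  refine crit_le (acMK n m s β p K).2.1 (fun q hq => ?_)
  refine le_crit (f := fun a => thetaK n a p β s m K) ?_
  have h1 := thetaK_le (n := n) q p β s m K
  have h2 : theta n q p β s m = 0 := hq
  exact le_antisymm (by linarith) measureReal_nonneg

/-- **Truncation of the critical curve.** -/
theorem acMK_tendsto {m : ℕ} {s : ℝ} (hn : 1 ≤ n) (hm : 1 ≤ m) (hs : 1 < s) (hs2 : s < 2)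
    {β : NNReal} (hβ : 0 < β) {p : unitInterval} (hp : 0 < p) :
    Tendsto (fun K : ℕ => (acMK n m s β p K : ℝ)) atTop (𝓝 (acM n m s β p : ℝ)) := by
  rcases lt_or_eq_of_le (show (acM n m s β p : ℝ) ≤ 1 from (acM n m s β p).2.2) with hlt | heq
  · rw [Metric.tendsto_nhds]
    intro ε hε
    have hpos : (0 : ℝ) < acM n m s β p :=
      lt_of_lt_of_le (show (0 : ℝ) < acS n m s β from acS_pos hs β) (acM_ge m s β p)
    set x : ℝ := min ((acM n m s β p : ℝ) + ε / 2) (((acM n m s β p : ℝ) + 1) / 2)
    have hx1 : (acM n m s β p : ℝ) < x := lt_min (by linarith) (by linarith)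
    have hx2 : x < 1 := lt_of_le_of_lt (min_le_right _ _) (by linarith)
    have hx3 : x ≤ (acM n m s β p : ℝ) + ε / 2 := min_le_left _ _
    have hx0 : 0 < x := by linarith
    have hθ : 0 < theta n ⟨x, hx0.le, hx2.le⟩ p β s m := by
      apply lt_of_le_of_ne (theta_nonneg _ _ _ _ _)
      intro h0
      have h1 : (⟨x, hx0.le, hx2.le⟩ : unitInterval) ≤ acM n m s β p :=
        le_crit (f := fun a => theta n a p β s m) h0.symm
      have h1' : x ≤ acM n m s β p := h1
      linarith
    have hp' : (0 : ℝ) < p := hp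
    have hp1 : (p : ℝ) ≤ 1 := p.2.2
    obtain ⟨K, δ, hδ, h⟩ := open_phase hn hm hs hs2
      (show (0 : unitInterval) < ⟨x, hx0.le, hx2.le⟩ from hx0) hp hβ
      (show x * (p : ℝ) < 1 by nlinarith) hθ
    have h1 := h ⟨x, hx0.le, hx2.le⟩ p β (by simpa using hδ.le) (by simpa using hδ.le)
      (by simpa using hδ.le)
    filter_upwards [eventually_ge_atTop K] with K' hK'
    have h2 : (acMK n m s β p K' : ℝ) ≤ x := by
      refine crit_le hx0.le (fun q hq => ?_)
      by_contra hc
      push Not at hc
      have h3 := thetaK_mono (n := n) (show (⟨x, hx0.le, hx2.le⟩ : unitInterval) ≤ q from hc.le)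
        (le_refl p) (le_refl β) s m hK'
      have h4 : thetaK n q p β s m K' = 0 := hq
      linarith
    have h3 : (acM n m s β p : ℝ) ≤ acMK n m s β p K' := acM_le_acMK m s β p K'
    rw [Real.dist_eq, abs_lt]
    constructor <;> linarith
  · have h1 : ∀ K, (acMK n m s β p K : ℝ) = acM n m s β p := by
      intro K
      have h2 : (acM n m s β p : ℝ) ≤ acMK n m s β p K := acM_le_acMK m s β p K
      have h3 : (acMK n m s β p K : ℝ) ≤ 1 := (acMK n m s β p K).2.2
      linarith
    simp only [h1]
    exact tendsto_const_nhds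

/-- **The jump of the finite-range models tends to zero** along the critical curve. -/
theorem thetaKM_tendsto {m : ℕ} {s : ℝ} (hn : 1 ≤ n) (hm : 1 ≤ m) (hs : 1 < s)
    (hs2 : s < 2) {β : NNReal} (hβ : 0 < β) {p : unitInterval} (hp : 0 < p) :
    Tendsto (fun K : ℕ => thetaK n (acMK n m s β p K) p β s m K) atTop (𝓝 0) := by
  rw [Metric.tendsto_nhds]
  intro ε hε
  obtain ⟨δ, hδ, h⟩ := Pool.Agent.W148.PC.s_usc n m (acM n m s β p) p β s hs (ε / 2) (by positivity)
  have h1 := (Metric.tendsto_nhds.mp (acMK_tendsto hn hm hs hs2 hβ hp)) δ hδ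
  filter_upwards [h1] with K hK
  rw [Real.dist_eq] at hK
  have h2 := h (acMK n m s β p K) p hK.le (by simpa using hδ.le)
  have h3 : theta n (acM n m s β p) p β s m = 0 := acM_zero hn hm hs hs2 hβ hp
  have h4 := thetaK_le (n := n) (acMK n m s β p K) p β s m K
  have h5 : 0 ≤ thetaK n (acMK n m s β p K) p β s m K := measureReal_nonneg
  unfold theta at h3 h4
  rw [Real.dist_eq, sub_zero, abs_of_nonneg h5]
  linarith

end

end Pool.Agent.TH526
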