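import Pool.Agent.W783.Perc.Fin

set_option autoImplicit false

open MeasureTheory Set Filter
open scoped Topology

/-!
Mixed site-bond percolation on `Z^(n+1)` with weak long-range bonds: nothing percolates on the
critical curve.
-/

namespace Pool.Agent.TH526

open Pool.Agent.W783.PC

noncomputable section

variable {n : ℕ}

/-- Critical site probability when nearest-neighbour bonds are open with probability `p`. -/
def acM (n m : ℕ) (s : ℝ) (β : NNReal) (p : unitInterval) : unitInterval :=
  crit (fun a => theta n a p β s m)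

lemma acM_one (m : ℕ) (s : ℝ) (β : NNReal) : acM n m s β 1 = acS n m s β := rfl

lemma acM_ge (m : ℕ) (s : ℝ) (β : NNReal) (p : unitInterval) : acS n m s β ≤ acM n m s β p := by
  show (acS n m s β : ℝ) ≤ acM n m s β p
  refine crit_le (acM n m s β p).2.1 (fun q hq => ?_)
  refine le_crit (f := fun a => theta n a p β s m) ?_
  have h1 : theta n q 1 β s m = 0 := hq
  have h2 : theta n q p β s m ≤ theta n q 1 β s m :=
    theta_mono (le_refl q) (show p ≤ 1 from p.2.2) (le_refl β) s m
  exact le_antisymm (by linarith) (theta_nonneg _ _ _ _ _)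

theorem acM_zero {m : ℕ} {s : ℝ} (hn : 1 ≤ n) (hm : 1 ≤ m) (hs : 1 < s) (hs2 : s < 2)
    {β : NNReal} (hβ : 0 < β) {p : unitInterval} (hp : 0 < p) :
    theta n (acM n m s β p) p β s m = 0 := by
  by_contra hc
  have hθ : 0 < theta n (acM n m s β p) p β s m :=
    lt_of_le_of_ne (theta_nonneg _ _ _ _ _) (Ne.symm hc)
  have hpos : 0 < acM n m s β p := lt_of_lt_of_le (acS_pos hs β) (acM_ge m s β p)
  have hap : ((acM n m s β p : unitInterval) : ℝ) * p < 1 := by
    have h1 : ((acM n m s β p : unitInterval) : ℝ) ≤ 1 := (acM n m s β p).2.2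
    have h2 : (p : ℝ) ≤ 1 := p.2.2
    have h3 : (0 : ℝ) < p := hp
    rcases lt_or_eq_of_le h2 with h4 | h4
    · nlinarith
    · have h5 : p = 1 := Subtype.ext h4
      subst h5
      have h6 := acS_lt_one hn m s β
      rw [acM_one]
      simpa using h6
  obtain ⟨K, δ, hδ, h⟩ := open_phase hn hm hs hs2 hpos hp hβ hap hθ
  refine crit_zero (f := fun a => theta n a p β s m) hpos δ hδ (fun q hq => ?_)
  have h1 := h q p β hq (by simpa using hδ.le) (by simpa using hδ.le)
  have h2 := thetaK_le (n := n) q p β s m K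
  have h3 : 0 < theta n q p β s m := lt_of_lt_of_le h1 h2
  exact h3.ne'

/-- if the origin does not percolate then almost surely there is no infinite open cluster -/
lemma ae_finite {E : Set (Sym2 (V n))} (hE : ∀ x y : V n, NN x y → s(x, y) ∈ E)
    (r : Ix n → unitInterval) (h1 : ∀ v, 0 < (r (Sum.inl v) : ℝ))
    (h2 : ∀ e, isNN e → 0 < (r (Sum.inr e) : ℝ))
    (h : (pm r).real (Perc E 0) = 0) : ∀ᵐ ω ∂(pm r), ∀ x, (cl E ω univ x).Finite := by
  by_contra hc
  have h3 : (pm r) {ω | ∃ x, ω ∈ Perc E x} ≠ 0 := by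
    intro h0
    apply hc
    rw [ae_iff]
    convert h0 using 2
    ext ω
    simp only [mem_setOf_eq, not_forall]
    rfl
  have h4 : 0 < (pm r).real {ω | ∃ x, ω ∈ Perc E x} := by
    rw [Measure.real]
    exact ENNReal.toReal_pos h3 (measure_ne_top _ _)
  have h5 := pos_origin hE r h1 h2 h4
  linarith

theorem mixed_ae {m : ℕ} {s : ℝ} (hn : 1 ≤ n) (hm : 1 ≤ m) (hs : 1 < s) (hs2 : s < 2)
    {β : NNReal} (hβ : 0 < β) {p : unitInterval} (hp : 0 < p) :
    ∀ᵐ ω ∂(pm (prob (n := n) (acM n m s β p) p β s m)), ∀ x, (cl (EdI m) ω univ x).Finite := by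
  refine ae_finite (NN_EdI m) _ (fun v => ?_) (fun e he => ?_) (acM_zero hn hm hs hs2 hβ hp)
  · have h1 : (0 : ℝ) < acS n m s β := acS_pos hs β
    exact lt_of_lt_of_le h1 (acM_ge m s β p)
  · rw [prob_nn _ _ _ _ _ he]
    exact hp

end

end Pool.Agent.TH526
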